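import Mathlib

set_option autoImplicit false

/-! Finite regular graphs of arbitrarily large degree and girth, by iterated mod-two homology
covers. -/

namespace Pool.Agent.W166.Girth

open SimpleGraph

variable {V : Type}

/-- the mod-two homology cover -/
def cov [DecidableEq V] (G : SimpleGraph V) : SimpleGraph (V × (Sym2 V → ZMod 2)) where
  Adj x y := G.Adj x.1 y.1 ∧ y.2 = x.2 + Pi.single s(x.1, y.1) 1
  symm := ⟨by
    rintro ⟨u, x⟩ ⟨v, y⟩ ⟨h1, h2⟩
    refine ⟨h1.symm, ?_⟩
    simp only at h2 ⊢
    rw [h2, Sym2.eq_swap, add_assoc, ← Pi.single_add]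
    have : (1 : ZMod 2) + 1 = 0 := by decide
    rw [this]; simp⟩
  loopless := ⟨fun x h => G.loopless.irrefl _ h.1⟩

/-- projection -/
def proj [DecidableEq V] (G : SimpleGraph V) : cov G →g G where
  toFun := Prod.fst
  map_rel' := fun h => h.1

theorem walk_count [DecidableEq V] (G : SimpleGraph V) {a b : V × (Sym2 V → ZMod 2)}
    (w : (cov G).Walk a b) (e : Sym2 V) :
    b.2 e = a.2 e + (((w.map (proj G)).edges.count e : ℕ) : ZMod 2) := by
  induction w with
  | nil => simp
  | @cons a c b h p ih =>
    rw [ih, h.2]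
    simp only [Walk.map_cons, Walk.edges_cons, List.count_cons]
    by_cases he : e = s(a.1, c.1)
    · subst he
      have h2 : (s((proj G) a, (proj G) c) == s(a.1, c.1)) = true := by
        rw [beq_iff_eq]; rfl
      rw [h2]
      simp
      ring
    · have h2 : (s((proj G) a, (proj G) c) == e) = false := by
        rw [beq_eq_false_iff_ne]; exact fun h' => he h'.symm
      rw [h2]
      simp [he]

theorem map_isChain [DecidableEq V] (G : SimpleGraph V) {a b : V × (Sym2 V → ZMod 2)}
    (w : (cov G).Walk a b) (hw : List.IsChain (· ≠ ·) w.edges) :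
    List.IsChain (· ≠ ·) (w.map (proj G)).edges := by
  induction w with
  | nil => simp
  | @cons a c b h p ih =>
    rw [Walk.edges_cons, List.isChain_cons] at hw
    rw [Walk.map_cons, Walk.edges_cons, List.isChain_cons]
    refine ⟨?_, ih hw.2⟩
    intro y hy
    cases p with
    | nil => simp at hy
    | @cons _ d _ h' q =>
      simp only [Walk.map_cons, Walk.edges_cons, List.head?_cons, Option.mem_def,
        Option.some.injEq] at hy
      have h3 := hw.1 s(c, d) (by simp)
      intro heq
      apply h3
      rw [← hy] at heq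
      have h4 : a.1 = d.1 := by
        have h5 : s(a.1, c.1) = s(c.1, d.1) := heq
        rw [Sym2.eq_iff] at h5
        rcases h5 with h5 | h5
        · exact h5.1.trans h5.2
        · exact h5.1
      have h6 : a = d := by
        apply Prod.ext h4
        rw [h'.2, h.2, h4, Sym2.eq_swap, add_assoc, ← Pi.single_add]
        have : (1 : ZMod 2) + 1 = 0 := by decide
        rw [this]; simp
      rw [h6, Sym2.eq_swap]

/-- A closed nonempty walk without backtracking, all of whose edges are used an even number of
times, has length at least twice the girth. -/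
theorem even_walk [DecidableEq V] (G : SimpleGraph V) (g : ℕ) (hg : (g : ℕ∞) ≤ G.egirth) {u : V}
    (w : G.Walk u u) (hnn : w ≠ .nil) (hch : List.IsChain (· ≠ ·) w.edges)
    (hev : ∀ e, Even (w.edges.count e)) : 2 * g ≤ w.length := by
  classical
  let H : SimpleGraph V := fromEdgeSet {e | e ∈ w.edges}
  have hHG : H ≤ G := by
    intro a b hab
    rw [fromEdgeSet_adj] at hab
    exact w.adj_of_mem_edges hab.1
  have hw : ∀ e ∈ w.edges, e ∈ H.edgeSet := by
    intro e he
    rw [edgeSet_fromEdgeSet]
    refine ⟨he, ?_⟩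
    exact G.not_isDiag_of_mem_edgeSet (w.edges_subset_edgeSet he)
  have hnac : ¬ H.IsAcyclic := by
    intro hac
    have h1 : (w.transfer H hw).IsPath := by
      rw [hac.isPath_iff_isChain, Walk.edges_transfer]
      exact hch
    have h2 := Walk.isPath_iff_nil.mp h1
    apply hnn
    have h3 : (w.transfer H hw).length = 0 := Walk.length_eq_zero_iff.mpr h2
    rw [Walk.length_transfer] at h3
    have h4 : w.Nil := Walk.length_eq_zero_iff.mp h3
    exact Walk.eq_nil_iff_nil.mpr h4
  simp only [IsAcyclic, not_forall, not_not] at hnac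
  obtain ⟨v, c, hc⟩ := hnac
  have hc' : (c.map (Hom.ofLE hHG)).IsCycle := by
    exact hc.mapLe hHG
  have h1 : (g : ℕ∞) ≤ (c.map (Hom.ofLE hHG)).length := hg.trans (egirth_le_length hc')
  have h2 : g ≤ c.length := by
    rw [Walk.length_map] at h1
    exact_mod_cast h1
  have h3 : (c.edges ++ c.edges).Subperm w.edges := by
    rw [List.subperm_ext_iff]
    intro e he
    have he' : e ∈ c.edges := by simpa using he
    rw [List.count_append]
    have h4 : c.edges.count e ≤ 1 := List.nodup_iff_count_le_one.mp hc.edges_nodup e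
    have h5 : e ∈ w.edges := by
      have := c.edges_subset_edgeSet he'
      rw [edgeSet_fromEdgeSet] at this
      exact this.1
    have h6 : 0 < w.edges.count e := List.count_pos_iff.mpr h5
    have h7 := hev e
    obtain ⟨k, hk⟩ := h7
    omega
  have h4 := h3.length_le
  rw [List.length_append, Walk.length_edges, Walk.length_edges] at h4
  omega

theorem cov_girth [DecidableEq V] (G : SimpleGraph V) (g : ℕ) (hg : (g : ℕ∞) ≤ G.egirth) :
    ((2 * g : ℕ) : ℕ∞) ≤ (cov G).egirth := by
  rw [le_egirth]
  intro a w hw
  have h1 : 2 * g ≤ (w.map (proj G)).length := by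
    apply even_walk G g hg
    · intro h
      apply hw.ne_nil
      have : (w.map (proj G)).length = 0 := by rw [h]; rfl
      rw [Walk.length_map] at this
      have h4 : w.Nil := Walk.length_eq_zero_iff.mp this
      exact Walk.eq_nil_iff_nil.mpr h4
    · exact map_isChain G w hw.edges_nodup.isChain
    · intro e
      have := walk_count G w e
      rw [left_eq_add] at this
      rw [ZMod.natCast_eq_zero_iff] at this
      exact even_iff_two_dvd.mpr this
  rw [Walk.length_map] at h1
  exact_mod_cast h1

theorem cov_degree [DecidableEq V] (G : SimpleGraph V) (d : ℕ)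
    (hd : ∀ v, (G.neighborSet v).ncard = d) (x : V × (Sym2 V → ZMod 2)) :
    ((cov G).neighborSet x).ncard = d := by
  rw [← hd x.1]
  have h : (cov G).neighborSet x =
      (fun v => (v, x.2 + Pi.single s(x.1, v) 1)) '' G.neighborSet x.1 := by
    ext ⟨v, y⟩
    simp only [mem_neighborSet, Set.mem_image, Prod.mk.injEq]
    constructor
    · rintro ⟨h1, h2⟩
      exact ⟨v, h1, rfl, h2.symm⟩
    · rintro ⟨v', h1, rfl, h2⟩
      exact ⟨h1, h2.symm⟩
  rw [h, Set.ncard_image_of_injective]
  intro a b hab
  exact (Prod.mk.inj hab).1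

/-- finite `d`-regular graphs of girth at least `3 * 2 ^ r` -/
theorem exists_reg (d r : ℕ) : ∃ (V : Type) (_ : Fintype V) (_ : DecidableEq V) (G : SimpleGraph V),
    Nonempty V ∧ (∀ v, (G.neighborSet v).ncard = d) ∧ ((3 * 2 ^ r : ℕ) : ℕ∞) ≤ G.egirth := by
  induction r with
  | zero =>
    refine ⟨Fin (d + 1), inferInstance, inferInstance, ⊤, inferInstance, ?_, ?_⟩
    · intro v
      have : (⊤ : SimpleGraph (Fin (d + 1))).neighborSet v = {v}ᶜ := by
        ext w; simp [eq_comm]
      rw [this, Set.ncard_compl, Set.ncard_singleton]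
      simp
    · simpa using three_le_egirth
  | succ r ih =>
    obtain ⟨V, h1, h2, G, h3, h4, h5⟩ := ih
    refine ⟨V × (Sym2 V → ZMod 2), inferInstance, inferInstance, cov G, inferInstance,
      cov_degree G d h4, ?_⟩
    have := cov_girth G _ h5
    rw [pow_succ]
    convert this using 2
    ring

/-- on `Fin n` -/
theorem exists_fin (d r : ℕ) : ∃ (n : ℕ) (G : SimpleGraph (Fin n)), d < n ∧
    2 * G.edgeSet.ncard = d * n ∧ ((3 * 2 ^ r : ℕ) : ℕ∞) ≤ G.egirth := by
  classical
  obtain ⟨V, h1, h2, G, h3, h4, h5⟩ := exists_reg d r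
  let e := G.overFinIso (n := Fintype.card V) rfl
  have hdeg : ∀ v, ((G.overFin rfl).neighborSet v).ncard = d := by
    intro v
    have e1 : (G.overFin rfl).neighborSet v ≃ G.neighborSet (e.symm v) := e.symm.mapNeighborSet v
    rw [← Nat.card_coe_set_eq, Nat.card_congr e1, Nat.card_coe_set_eq]
    exact h4 _
  refine ⟨Fintype.card V, G.overFin rfl, ?_, ?_, ?_⟩
  · obtain ⟨v⟩ := h3
    have h6 : (insert v (G.neighborSet v)).ncard = d + 1 := by
      rw [Set.ncard_insert_of_notMem (by simp), h4]
    have h7 : (insert v (G.neighborSet v)).ncard ≤ Fintype.card V := by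
      rw [← Nat.card_eq_fintype_card, ← Set.ncard_univ]
      exact Set.ncard_le_ncard (Set.subset_univ _)
    omega
  · have h6 := (G.overFin rfl : SimpleGraph (Fin (Fintype.card V))).sum_degrees_eq_twice_card_edges
    have h7 : ∀ v, (G.overFin rfl).degree v = d := by
      intro v
      rw [← card_neighborSet_eq_degree, ← Nat.card_eq_fintype_card, Nat.card_coe_set_eq]
      exact hdeg v
    rw [Finset.sum_congr rfl (fun v _ => h7 v)] at h6
    simp only [Finset.sum_const, Finset.card_univ, Fintype.card_fin, smul_eq_mul] at h6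
    rw [← coe_edgeFinset, Set.ncard_coe_finset, ← h6, mul_comm]
  · rw [← e.egirth_eq]
    exact h5

end Pool.Agent.W166.Girth
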